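import Pool.Agent.Run7.h521.PM.Assemble

/-!
MP_ac6992_gt, Q1 (negative answer).

There is a Cantor set `C` in the plane and a subgroup `H` of `Map(ℂ \ C)` which is not amenable and
for which every homogeneous quasimorphism is a homomorphism, so that `Q(H) / Hom(H, ℝ) = 0`.

Outline. Let `G` be a group of increasing homeomorphisms `g` of the real line preserving a closed
discrete union of copies of a Cantor set, commuting on the integers with a translation up to the
degree. It acts on the plane by `x + iy ↦ sq g x + iy` and preserves a Cantor set on the real axis.
Every element of degree zero is a commutator with the translation (infinite product), so every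
homogeneous quasimorphism on an image of `G` is a homomorphism; and the action on the Cantor set,
which the mapping class determines, is paradoxical.
-/

set_option autoImplicit false

open Run7.h521.PM

/-- There is a Cantor set `C ⊆ ℂ` such that the mapping class group
`Map(ℂ \ C) = Homeo⁺(ℂ \ C) / Homeo₀(ℂ \ C)` has a non-amenable subgroup `H` all of whose
homogeneous quasimorphisms are homomorphisms; in particular `Q(H) / Hom(H, ℝ)` is zero, hence
finite-dimensional. -/
theorem Pool.Agent.Results.MP_ac6992_gt.NonamenableNoQM.result :
    ∃ C : Set ℂ, Nonempty (C ≃ₜ (ℕ → Bool)) ∧ ∃ H : Subgroup (MapGroup C),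
      ¬ IsAmenable H ∧ Subsingleton (QTilde H) ∧ FiniteDimensional ℝ (QTilde H) := by
  have h := qtilde_HH
  exact ⟨lineSet CC, cantor_lineSet, HH, not_amenable_HH, h, inferInstance⟩
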